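import Pool.Agent.Helper30.SY.St2

/-!
# Project SY, module STR: assembly of part S
-/

set_option autoImplicit false

namespace Pool.Agent.Helper40.SY

open Finset Pool.Agent.Helper30.SY

theorem hSTR : StSTR := by
  intro hORD hCHV hINV hHLF hPRM hFIN ε hε
  obtain ⟨κ, n1, hκ, H1⟩ := hHLF hINV (ε / 8) (by positivity)
  obtain ⟨κ', hκ'0, hκ'1, hκ'2⟩ : ∃ κ' : ℝ, 0 < κ' ∧ κ' ≤ κ ∧ κ' ≤ ε / 24 :=
    ⟨min κ (ε / 24), lt_min hκ (by positivity), min_le_left _ _, min_le_right _ _⟩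
  obtain ⟨ξ', n2, hξ', H2⟩ := hORD κ' hκ'0
  obtain ⟨ξ, hξ0, hξ1, hξ2⟩ : ∃ ξ : ℝ, 0 < ξ ∧ ξ ≤ ξ' / 3 ∧ ξ ≤ κ' / 3 :=
    ⟨min (ξ' / 3) (κ' / 3), lt_min (by positivity) (by positivity), min_le_left _ _,
      min_le_right _ _⟩
  refine ⟨ξ, max (max n1 n2) (max 1 ⌈4 / ε⌉₊), hξ0, ?_⟩
  intro n hn s hs hmis hnW
  have hn1 : n1 ≤ n := (le_max_left _ _).trans ((le_max_left _ _).trans hn)
  have hn2 : n2 ≤ n := (le_max_right _ _).trans ((le_max_left _ _).trans hn)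
  have hn3 : 1 ≤ n := (le_max_left _ _).trans ((le_max_right _ _).trans hn)
  have hn4 : 4 / ε ≤ (n : ℝ) := by
    have h : ⌈4 / ε⌉₊ ≤ n := (le_max_right _ _).trans ((le_max_right _ _).trans hn)
    exact (Nat.le_ceil _).trans (by exact_mod_cast h)
  have hn0 : (0 : ℝ) < n := by exact_mod_cast hn3
  have p2 : (0 : ℝ) ≤ (n : ℝ) ^ 2 := by positivity
  have p3 : (0 : ℝ) ≤ (n : ℝ) ^ 3 := by positivity
  obtain ⟨v, h1, h2, h3, h4, h5⟩ := hCHV n s ξ hn3 hξ0 hs hmis hnW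
  have e1 : 3 * ξ ≤ κ' := by linarith
  have e2 : 3 * ξ ≤ ξ' := by linarith
  have e3 : ξ ≤ ξ' := by linarith
  have e4 : ξ ≤ κ := by linarith
  have e5 : 3 * ξ ≤ κ := by linarith
  have m1 : (mis s : ℝ) ≤ ξ' * (n : ℝ) ^ 2 := hmis.trans (mul_le_mul_of_nonneg_right e3 p2)
  have m2 : (mis s : ℝ) ≤ κ * (n : ℝ) ^ 2 := hmis.trans (mul_le_mul_of_nonneg_right e4 p2)
  obtain ⟨ρP, iP, bP⟩ := H2 n hn2 s (ON s v) hs
    (h3.trans (mul_le_mul_of_nonneg_right e2 p3)) m1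
  obtain ⟨ρQ, iQ, bQ⟩ := H2 n hn2 s (IN s v) hs
    (h4.trans (mul_le_mul_of_nonneg_right e2 p3)) m1
  have d1 : (n : ℝ) - 1 ≤ (ON s v).card + (IN s v).card + κ' * n :=
    h1.trans (by
      have := mul_le_mul_of_nonneg_right e1 hn0.le
      linarith)
  have d2 : (n : ℝ) - 1 ≤ (ON s v).card + (IN s v).card + κ * n :=
    d1.trans (by
      have := mul_le_mul_of_nonneg_right hκ'1 hn0.le
      linarith)
  obtain ⟨A1, A2⟩ := H1 n hn1 s v ρP ρQ hs m2 d2 (h5.trans (mul_le_mul_of_nonneg_right e5 p3))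
    iP iQ (bP.trans (mul_le_mul_of_nonneg_right hκ'1 p2))
    (bQ.trans (mul_le_mul_of_nonneg_right hκ'1 p2))
  obtain ⟨π, hπ⟩ := hFIN hPRM n s v ρP ρQ κ' (ε / 8) hs hκ'0.le (by positivity) d1 h2 iP iQ bP bQ
    A1 A2
  refine ⟨π, hπ.trans ?_⟩
  have c1 : (6 * κ' + 2 * (ε / 8)) * (n : ℝ) ^ 2 ≤ ε / 2 * (n : ℝ) ^ 2 :=
    mul_le_mul_of_nonneg_right (by linarith) p2
  have c2 : 2 * (n : ℝ) ≤ ε / 2 * (n : ℝ) ^ 2 := by
    have h : 4 ≤ n * ε := by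
      rwa [div_le_iff₀ hε] at hn4
    nlinarith
  linarith

end Pool.Agent.Helper40.SY
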