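import Pool.Agent.Helper94.SY.St

set_option autoImplicit false

namespace Pool.Agent.Helper40.SY

open Pool.Agent.Helper94.SY Finset
open scoped Classical

theorem NU_core (p y K s B : ℝ) (hp : 2 ≤ p) (hy : 0 < y) (hK : 0 ≤ K) (hs : 1 / 2 < s)
    (h : s * (2 * s - 1) * y ^ 3 ≤ 6 * p * Real.sqrt (K * (p - 1) * y) *
      (2 * p * (p - 1) * y + p * y ^ 2 / (p ^ 2 - 1)))
    (hB : 2 * p * (p - 1) * y + p * y ^ 2 / (p ^ 2 - 1) ≤ 10 / 3 * B * y) :
    (2 * s - 1) * y ^ 2 ≤ 40 * p * B * Real.sqrt (K * p * y) := by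
  have hL : Real.sqrt (K * (p - 1) * y) ≤ Real.sqrt (K * p * y) := by
    apply Real.sqrt_le_sqrt
    have : K * (p - 1) ≤ K * p := mul_le_mul_of_nonneg_left (by linarith) hK
    exact mul_le_mul_of_nonneg_right this hy.le
  have hL0 := Real.sqrt_nonneg (K * (p - 1) * y)
  have hbr : 0 ≤ 2 * p * (p - 1) * y + p * y ^ 2 / (p ^ 2 - 1) := by
    have h1 : 0 ≤ 2 * p * (p - 1) * y := by
      have : 0 ≤ p - 1 := by linarith
      positivity
    have h2 : 0 ≤ p * y ^ 2 / (p ^ 2 - 1) := by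
      have : 0 ≤ p ^ 2 - 1 := by nlinarith
      positivity
    linarith
  have h1 : s * (2 * s - 1) * y ^ 3 ≤ 6 * p * Real.sqrt (K * p * y) * (10 / 3 * B * y) := by
    refine h.trans ?_
    have h3 : 6 * p * Real.sqrt (K * (p - 1) * y) ≤ 6 * p * Real.sqrt (K * p * y) :=
      mul_le_mul_of_nonneg_left hL (by linarith)
    exact mul_le_mul h3 hB hbr (by positivity)
  have h2 : (2 * s - 1) / 2 * y ^ 3 ≤ s * (2 * s - 1) * y ^ 3 := by
    apply mul_le_mul_of_nonneg_right _ (by positivity)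
    nlinarith
  have h4 : ((2 * s - 1) * y ^ 2) * y ≤ (40 * p * B * Real.sqrt (K * p * y)) * y := by
    nlinarith [h1, h2]
  exact le_of_mul_le_mul_right h4 hy

theorem NU_frac (p y : ℝ) (hp : 2 ≤ p) (hy : 0 < y) :
    p * y ^ 2 / (p ^ 2 - 1) ≤ 4 / 3 * (y ^ 2 / p) := by
  have h1 : 0 < p ^ 2 - 1 := by nlinarith
  have h2 : 0 < p := by linarith
  rw [div_le_iff₀ h1]
  have h3 : 4 / 3 * (y ^ 2 / p) * (p ^ 2 - 1) = 4 / 3 * y ^ 2 * ((p ^ 2 - 1) / p) := by ring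
  rw [h3]
  have h4 : 3 / 4 * p ≤ (p ^ 2 - 1) / p := by
    rw [le_div_iff₀ h2]
    nlinarith
  have h5 : 0 ≤ 4 / 3 * y ^ 2 := by positivity
  nlinarith [mul_le_mul_of_nonneg_left h4 h5]

theorem hNU : StNU := by
  intro p y K s hp hy hK hs h
  have ht : 0 < 2 * s - 1 := by linarith
  have hp0 : 0 < p := by linarith
  rcases hy.eq_or_lt with rfl | hy0
  · left
    positivity
  have hfr := NU_frac p y hp hy0
  have hs0 : 0 ≤ K * p * y := by positivity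
  have hsq := Real.sq_sqrt hs0
  have hsn := Real.sqrt_nonneg (K * p * y)
  have h2p : 2 * p * (p - 1) * y ≤ 2 * p ^ 2 * y := by nlinarith [mul_pos hp0 hy0]
  rcases le_or_gt y (p ^ 3) with hc | hc
  · left
    have hB : 2 * p * (p - 1) * y + p * y ^ 2 / (p ^ 2 - 1) ≤ 10 / 3 * p ^ 2 * y := by
      have h3 : y ^ 2 / p ≤ p ^ 2 * y := by
        rw [div_le_iff₀ hp0]
        nlinarith [mul_le_mul_of_nonneg_left hc hy]
      nlinarith
    have h5 := NU_core p y K s (p ^ 2) hp hy0 hK hs h hB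
    have h6 : ((2 * s - 1) * y ^ 2) ^ 2 ≤ (40 * p * p ^ 2 * Real.sqrt (K * p * y)) ^ 2 :=
      pow_le_pow_left₀ (by positivity) h5 2
    rw [mul_pow _ (Real.sqrt _) 2, hsq] at h6
    have h7 : ((2 * s - 1) ^ 2 * y ^ 3) * y ≤ (1600 * p ^ 7 * K) * y := by
      calc ((2 * s - 1) ^ 2 * y ^ 3) * y = ((2 * s - 1) * y ^ 2) ^ 2 := by ring
        _ ≤ _ := h6
        _ = (1600 * p ^ 7 * K) * y := by ring
    have h8 : (2 * s - 1) ^ 2 * y ^ 3 ≤ 1600 * p ^ 7 * K := le_of_mul_le_mul_right h7 hy0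
    have h9 : y ^ 3 ≤ (40 / (2 * s - 1)) ^ 2 * p ^ 7 * K := by
      have e : (40 / (2 * s - 1)) ^ 2 * p ^ 7 * K = (1600 * p ^ 7 * K) / (2 * s - 1) ^ 2 := by
        field_simp
        ring
      rw [e, le_div_iff₀ (by positivity)]
      linarith
    have hR : 0 ≤ (40 / (2 * s - 1)) ^ (2 / 3 : ℝ) * p ^ (7 / 3 : ℝ) * K ^ (1 / 3 : ℝ) := by
      positivity
    have hcube : ((40 / (2 * s - 1)) ^ (2 / 3 : ℝ) * p ^ (7 / 3 : ℝ) * K ^ (1 / 3 : ℝ)) ^ 3 =
        (40 / (2 * s - 1)) ^ 2 * p ^ 7 * K := by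
      have a1 : ∀ (a e : ℝ), 0 ≤ a → (a ^ e) ^ 3 = a ^ (e * 3) := by
        intro a e ha
        rw [← Real.rpow_natCast, ← Real.rpow_mul ha]
        norm_num
      rw [mul_pow, mul_pow, a1 _ _ (by positivity), a1 _ _ hp0.le, a1 _ _ hK]
      have b1 : (2 / 3 : ℝ) * 3 = ((2 : ℕ) : ℝ) := by norm_num
      have b2 : (7 / 3 : ℝ) * 3 = ((7 : ℕ) : ℝ) := by norm_num
      have b3 : (1 / 3 : ℝ) * 3 = ((1 : ℕ) : ℝ) := by norm_num
      rw [b1, b2, b3, Real.rpow_natCast, Real.rpow_natCast, Real.rpow_natCast, pow_one]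
    rw [← pow_le_pow_iff_left₀ hy hR (by norm_num : (3 : ℕ) ≠ 0), hcube]
    exact h9
  · right
    refine ⟨hc, ?_⟩
    have hB : 2 * p * (p - 1) * y + p * y ^ 2 / (p ^ 2 - 1) ≤ 10 / 3 * (y / p) * y := by
      have h3 : p ^ 2 * y ≤ y ^ 2 / p := by
        rw [le_div_iff₀ hp0]
        nlinarith [mul_le_mul_of_nonneg_left hc.le hy]
      have h4 : 10 / 3 * (y / p) * y = 10 / 3 * (y ^ 2 / p) := by ring
      rw [h4]
      nlinarith
    have h5 := NU_core p y K s (y / p) hp hy0 hK hs h hB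
    have e1 : 40 * p * (y / p) * Real.sqrt (K * p * y) = 40 * Real.sqrt (K * p * y) * y := by
      field_simp
    rw [e1] at h5
    have h6 : (2 * s - 1) * y ≤ 40 * Real.sqrt (K * p * y) := by
      apply le_of_mul_le_mul_right _ hy0
      calc (2 * s - 1) * y * y = (2 * s - 1) * y ^ 2 := by ring
        _ ≤ _ := h5
    have h7 : ((2 * s - 1) * y) ^ 2 ≤ (40 * Real.sqrt (K * p * y)) ^ 2 :=
      pow_le_pow_left₀ (by positivity) h6 2
    rw [mul_pow 40 (Real.sqrt _) 2, hsq] at h7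
    have h8 : ((2 * s - 1) ^ 2 * y) * y ≤ (1600 * K * p) * y := by
      calc ((2 * s - 1) ^ 2 * y) * y = ((2 * s - 1) * y) ^ 2 := by ring
        _ ≤ _ := h7
        _ = (1600 * K * p) * y := by ring
    have h9 := le_of_mul_le_mul_right h8 hy0
    rw [le_div_iff₀ (by positivity)]
    linarith

end Pool.Agent.Helper40.SY
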